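import Pool.Agent.E8helper59.TS.Stm3

/-!
# Project TS, piece TS24 (BOX)
-/

set_option autoImplicit false
open MeasureTheory Set Filter Topology
open scoped Pointwise ENNReal

namespace Pool.Agent.E8helper3.TS

open Pool.Agent.E8helper59.TS

/-- a translate of a convex body is weakly on one side of a hyperplane avoiding its interior -/
lemma side {V : Type} [NormedAddCommGroup V] [NormedSpace ℝ V] {K : Set V} (hK : Convex ℝ K)
    (hc : IsCompact K) (hi : (interior K).Nonempty) (f : V →L[ℝ] ℝ) (c : ℝ) (r : V)
    (h : ∀ y ∈ interior ((fun x => r + x) '' K), f y ≠ c) :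
    (∀ x ∈ K, f (r + x) ≤ c) ∨ ∀ x ∈ K, c ≤ f (r + x) := by
  have hint : ∀ x ∈ interior K, f (r + x) ≠ c := by
    intro x hx
    apply h
    have e : interior ((fun x => r + x) '' K) = (fun x => r + x) '' interior K :=
      ((Homeomorph.addLeft r).image_interior K).symm
    rw [e]
    exact ⟨x, hx, rfl⟩
  have hcl : K ⊆ closure (interior K) := by
    rw [hK.closure_interior_eq_closure_of_nonempty_interior hi]
    exact subset_closure
  have hcont : Continuous fun x => f (r + x) := f.continuous.comp (continuous_const.add continuous_id)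
  by_cases h1 : ∃ x ∈ interior K, f (r + x) < c
  · left
    obtain ⟨x1, hx1, hlt⟩ := h1
    have hall : ∀ x ∈ interior K, f (r + x) ≤ c := by
      intro x2 hx2
      by_contra hgt
      push Not at hgt
      have hpre : IsPreconnected ((fun x => f (r + x)) '' interior K) :=
        hK.interior.isPreconnected.image _ hcont.continuousOn
      have hmem : c ∈ (fun x => f (r + x)) '' interior K :=
        hpre.ordConnected.out ⟨x1, hx1, rfl⟩ ⟨x2, hx2, rfl⟩ ⟨hlt.le, hgt.le⟩
      obtain ⟨x, hx, hxc⟩ := hmem
      exact hint x hx hxc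
    have hsub : closure (interior K) ⊆ {x | f (r + x) ≤ c} :=
      closure_minimal hall (isClosed_le hcont continuous_const)
    exact fun x hx => hsub (hcl hx)
  · right
    push Not at h1
    have hsub : closure (interior K) ⊆ {x | c ≤ f (r + x)} :=
      closure_minimal h1 (isClosed_le continuous_const hcont)
    exact fun x hx => hsub (hcl hx)

/-- TS24 -/
theorem t_BOX (h1 : S_PROD) (h2 : S_PLANE) (h3 : S_LINE) : S_BOX := by
  intro k m K T A w hKc hKv hKi hT hD
  have hC := fun i => h2 k m K i (A i) hKc hKv hKi (hD.1 i).1 (hD.1 i).2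
  choose C0 hC0 hC using hC
  refine ⟨∑ i, C0 i, Finset.sum_nonneg fun i _ => hC0 i, ?_⟩
  intro F y ℓ hℓ hF
  set C := ∑ i, C0 i with hCdef
  have hCi : ∀ i, C0 i ≤ C := fun i =>
    Finset.single_le_sum (f := C0) (fun j _ => hC0 j) (Finset.mem_univ i)
  have hA : ∀ i, 0 < A i := fun i => (hD.1 i).1
  have hw : ∀ j, 0 < w j := fun j => (hD.2 j).1
  -- the separating sets
  let H : Fin k ⊕ Fin m → Set (Set (G k m)) := fun s => match s with
    | Sum.inl i => {S | ∃ (u : (ℝ × ℝ) →L[ℝ] ℝ) (c : ℝ), u ≠ 0 ∧
        S = {r | ∀ x ∈ K, u (r.1 i + x.1 i) ≤ c} ∧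
        ∀ r ∈ F, (∀ x ∈ K, u (r.1 i + x.1 i) ≤ c) ∨ ∀ x ∈ K, c ≤ u (r.1 i + x.1 i)}
    | Sum.inr j => {S | ∀ t ∈ F, ∀ s ∈ F, t ∈ S → s ∉ S → w j ≤ |t.2 j - s.2 j|}
  let b : Fin k ⊕ Fin m → ℝ := fun s => match s with
    | Sum.inl i => ((2 * ℓ + C) ^ 2 + A i) / A i
    | Sum.inr j => (2 * ℓ + w j) / w j
  have key : (F.card : ℝ) ≤ ∏ s, b s := by
    apply h1 (G k m) (Fin k ⊕ Fin m) F H b
    · intro t ht s hs hts
      obtain ⟨f, c, hf0, ⟨g, hg, hfg⟩, hft, hfs, hfr⟩ := hT t (hF t ht).1 s (hF s hs).1 hts
      have hfg' : ∀ x, f x = g x := hfg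
      have hside : ∀ r ∈ F, (∀ x ∈ K, f (r + x) ≤ c) ∨ ∀ x ∈ K, c ≤ f (r + x) :=
        fun r hr => side hKv hKc hKi f c r (hfr r (hF r hr).1)
      -- the second body is not in the hyperplane
      have hsnot : ¬ ∀ x ∈ K, f (s + x) ≤ c := by
        intro hall
        obtain ⟨x, hx⟩ := hKi
        have e : interior ((fun x => s + x) '' K) = (fun x => s + x) '' interior K :=
          ((Homeomorph.addLeft s).image_interior K).symm
        exact hfr s (hF s hs).1 (s + x) (by rw [e]; exact ⟨x, hx, rfl⟩)
          (le_antisymm (hall x (interior_subset hx)) (hfs x (interior_subset hx)))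
      rcases hg with ⟨i, u, hu⟩ | ⟨j, a, ha⟩
      · have hfu : ∀ r x : G k m, f (r + x) = u (r.1 i + x.1 i) := by
          intro r x
          rw [hfg', hu]; rfl
        refine ⟨Sum.inl i, {r | ∀ x ∈ K, u (r.1 i + x.1 i) ≤ c}, ⟨u, c, ?_, rfl, ?_⟩, ?_, ?_⟩
        · rintro rfl
          apply hf0
          refine ContinuousLinearMap.ext fun x => ?_
          rw [hfg', hu]; simp
        · intro r hr
          rcases hside r hr with h | h
          · left; intro x hx; rw [← hfu]; exact h x hx
          · right; intro x hx; rw [← hfu]; exact h x hx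
        · intro x hx; rw [← hfu]; exact hft x hx
        · intro hall
          apply hsnot
          intro x hx
          rw [hfu]; exact hall x hx
      · have hfa : ∀ r x : G k m, f (r + x) = a * (r.2 j + x.2 j) := by
          intro r x
          rw [hfg', ha]; rfl
        refine ⟨Sum.inr j, {r | ∀ x ∈ K, f (r + x) ≤ c}, ?_, hft, hsnot⟩
        intro t' ht' s' hs' htS hsS
        have hs2 : ∀ x ∈ K, c ≤ f (s' + x) := by
          rcases hside s' hs' with h | h
          · exact absurd h hsS
          · exact h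
        have ht2 : ∀ x ∈ K, f (t' + x) ≤ c := htS
        obtain ⟨x, hx, y', hy', hxy⟩ := (hD.2 j).2
        rcases lt_trichotomy a 0 with hneg | hzero | hpos
        · have q1 := ht2 y' hy'
          have q2 := hs2 x hx
          rw [hfa] at q1 q2
          have q3 : s'.2 j + x.2 j ≤ t'.2 j + y'.2 j := by nlinarith
          exact le_trans (by linarith) (le_abs_self _)
        · exfalso
          apply hsnot
          intro x' hx'
          have q1 := hfa s x'
          have q2 := hfa t x'
          have q3 := hft x' hx'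
          rw [hzero, zero_mul] at q1 q2
          rw [q1]; rw [q2] at q3; exact q3
        · have q1 := ht2 x hx
          have q2 := hs2 y' hy'
          rw [hfa] at q1 q2
          have q3 : t'.2 j + x.2 j ≤ s'.2 j + y'.2 j := by nlinarith
          rw [abs_sub_comm]
          exact le_trans (by linarith) (le_abs_self _)
    · rintro (i | j)
      · exact div_nonneg (by have := hA i; positivity) (hA i).le
      · exact div_nonneg (by have := hw j; positivity) (hw j).le
    · rintro (i | j) F' hF' hsep
      · show (F'.card : ℝ) ≤ ((2 * ℓ + C) ^ 2 + A i) / A i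
        rw [le_div_iff₀ (hA i)]
        have q := hC i F' y ℓ hℓ (fun t ht => (hF t (hF' ht)).2) (by
          intro t ht s hs hts
          obtain ⟨S, ⟨u, c, hu0, hS, hr⟩, hor⟩ := hsep t ht s hs hts
          refine ⟨u, c, hu0, ?_, fun r hr' => hr r (hF' hr')⟩
          rcases hor with ⟨hin, hout⟩ | ⟨hin, hout⟩
          · left
            rw [hS] at hin hout
            refine ⟨hin, ?_⟩
            rcases hr s (hF' hs) with h | h
            · exact absurd h hout
            · exact h
          · right
            rw [hS] at hin hout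
            refine ⟨hin, ?_⟩
            rcases hr t (hF' ht) with h | h
            · exact absurd h hout
            · exact h)
        refine q.trans ?_
        have q1 : (2 * ℓ + C0 i) ^ 2 ≤ (2 * ℓ + C) ^ 2 := by
          apply pow_le_pow_left₀ (by have := hC0 i; positivity)
          linarith [hCi i]
        linarith
      · show (F'.card : ℝ) ≤ (2 * ℓ + w j) / w j
        rw [le_div_iff₀ (hw j)]
        apply h3 k m j (w j) F' y ℓ (hw j) hℓ (fun t ht => (hF t (hF' ht)).2)
        intro t ht s hs hts
        obtain ⟨S, hS, hor⟩ := hsep t ht s hs hts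
        rcases hor with ⟨hin, hout⟩ | ⟨hin, hout⟩
        · exact hS t (hF' ht) s (hF' hs) hin hout
        · rw [abs_sub_comm]
          exact hS s (hF' hs) t (hF' ht) hin hout
  have hb : ∏ s, b s = ((∏ i, ((2 * ℓ + C) ^ 2 + A i)) * ∏ j, (2 * ℓ + w j)) /
      ((∏ i, A i) * ∏ j, w j) := by
    rw [Fintype.prod_sum_type]
    show (∏ i, ((2 * ℓ + C) ^ 2 + A i) / A i) * (∏ j, (2 * ℓ + w j) / w j) = _
    rw [Finset.prod_div_distrib, Finset.prod_div_distrib, div_mul_div_comm]
  rw [hb, le_div_iff₀ (mul_pos (Finset.prod_pos fun i _ => hA i)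
    (Finset.prod_pos fun j _ => hw j))] at key
  exact key

end Pool.Agent.E8helper3.TS
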